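import Pool.Agent.Y161.Cd.Final

set_option autoImplicit false

namespace Pool.Agent.Results.MP_0f87c6_ag.CounterexampleCharTwo

open Pool.Agent.Y161.Cd

/-- There is a field `k` of characteristic two whose absolute Galois group has cohomological dimension
one, and a smooth complete intersection of two quadrics in `ℙ⁵` over `k` without rational points. -/
theorem result : ∃ (k : Type) (_ : Field k), CharP k 2 ∧ HasCd Gal(SeparableClosure k/k) 1 ∧
    ∃ f g : MvPolynomial (Fin 6) k, f.IsHomogeneous 2 ∧ g.IsHomogeneous 2 ∧
      IsSmoothIntersection f g ∧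
      ∀ x : Fin 6 → k, MvPolynomial.eval x f = 0 → MvPolynomial.eval x g = 0 → x = 0 :=
  main

end Pool.Agent.Results.MP_0f87c6_ag.CounterexampleCharTwo
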